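import Pool.Agent.R709.TR.Final

/-!
MP_6c0529_co: common induced partitions of two trees versus two caterpillars.

The semilabeled binary trees `LTree n`, the set `𝔓(T)` of the partitions induced by the sets of
deleted edges, caterpillars, and the minima `s_n = sMin n` and `c_n = cMin n` are defined in
`Pool.Agent.R709.TR.Defs`.
-/

set_option autoImplicit false

open Pool.Agent.R709.TR

namespace Pool.Agent.Results.MP_6c0529_co.SevenLeaves

/-- The equality `s_n = c_n` fails for `n = 7`: `s_7 ≤ 125`, `c_7 = 126`, and so `s_7 < c_7`. -/
theorem result : sMin 7 ≤ 125 ∧ cMin 7 = 126 ∧ sMin 7 < cMin 7 := main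

end Pool.Agent.Results.MP_6c0529_co.SevenLeaves
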